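import Pool.Agent.helper55.AV.Spec

/-!
# TI: insertion of a new maximum in the second column
-/

namespace Pool.Agent.AV

open Finset Function

/-- The permutation with a new maximum in column `q`. -/
def TI_ins {n : ℕ} (q : Fin (n + 1)) (b : Equiv.Perm (Fin n)) : Equiv.Perm (Fin (n + 1)) :=
  (finSuccEquiv' q).trans ((Equiv.optionCongr b).trans (finSuccEquiv' (Fin.last n)).symm)

theorem TI_at {n : ℕ} (q : Fin (n + 1)) (b : Equiv.Perm (Fin n)) : TI_ins q b q = Fin.last n := by
  unfold TI_ins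
  simp

theorem TI_succ {n : ℕ} (q : Fin (n + 1)) (b : Equiv.Perm (Fin n)) (i : Fin n) :
    TI_ins q b (q.succAbove i) = (b i).castSucc := by
  unfold TI_ins
  simp

theorem TI_cases {n : ℕ} (q z : Fin (n + 1)) : z = q ∨ ∃ i, z = q.succAbove i := by
  by_cases h : z = q
  · exact Or.inl h
  · obtain ⟨i, hi⟩ := Fin.exists_succAbove_eq h
    exact Or.inr ⟨i, hi.symm⟩

theorem TI_ne {n : ℕ} (q : Fin (n + 1)) (b : Equiv.Perm (Fin n)) {z w : Fin (n + 1)}
    (h : TI_ins q b z < TI_ins q b w) : ∃ i, z = q.succAbove i := by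
  rcases TI_cases q z with h1 | h1
  · rw [h1, TI_at] at h
    exact absurd (Fin.le_last (TI_ins q b w)) (not_le.2 h)
  · exact h1

theorem TI_inj {n : ℕ} (q : Fin (n + 1)) : Injective (TI_ins (n := n) q) := by
  intro b b' h
  ext i
  have h1 := congrArg (fun π : Equiv.Perm (Fin (n + 1)) => π (q.succAbove i)) h
  simp only [TI_succ] at h1
  rw [Fin.castSucc_injective n h1]

theorem TI : TI_stmt := by
  intro n hn
  obtain ⟨q, hq⟩ : ∃ q : Fin (n + 1), (q : ℕ) = 1 := ⟨⟨1, by omega⟩, rfl⟩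
  unfold g
  refine Nat.card_le_card_of_injective (fun b => ⟨TI_ins q b.1, ⟨?_, ?_⟩, ?_⟩) ?_
  · intro a b' c d hab hbc hcd h1 h2 h3
    obtain ⟨a, rfl⟩ := TI_ne q _ h1
    obtain ⟨c, rfl⟩ := TI_ne q _ h2
    obtain ⟨b', rfl⟩ := TI_ne q _ h3
    rcases TI_cases q d with hd | ⟨d, rfl⟩
    · have h4 : (d : ℕ) = 1 := by rw [hd, hq]
      have h5 : (q.succAbove a : Fin (n + 1)).val < (q.succAbove b' : Fin (n + 1)).val := hab
      have h6 : (q.succAbove b' : Fin (n + 1)).val < (q.succAbove c : Fin (n + 1)).val := hbc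
      have h7 : (q.succAbove c : Fin (n + 1)).val < d.val := hcd
      omega
    · rw [TI_succ, TI_succ] at h1 h2 h3
      rw [Fin.succAbove_lt_succAbove_iff] at hab hbc hcd
      rw [Fin.castSucc_lt_castSucc_iff] at h1 h2 h3
      exact b.2.1 a b' c d hab hbc hcd h1 h2 h3
  · refine ⟨Nat.succ_pos n, fun K hK h => ?_⟩
    have h0 : (0 : Fin (n + 1)) ∈ K := by
      by_contra hc
      obtain ⟨x, hx⟩ := hK
      exact absurd (h x hx 0 hc).1 (by simp)
    have hqK : q ∈ K := by
      by_contra hc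
      have h1 := (h 0 h0 q hc).2
      rw [TI_at] at h1
      exact absurd (Fin.le_last _) (not_le.2 h1)
    have h0q : (0 : Fin (n + 1)) ≠ q := by
      intro e
      rw [← e] at hq
      simp at hq
    obtain ⟨z, hz⟩ := Fin.exists_succAbove_eq h0q
    have hK' : {i | q.succAbove i ∈ K} = Set.univ := by
      refine b.2.2.2 {i | q.succAbove i ∈ K} ⟨z, ?_⟩ ?_
      · show q.succAbove z ∈ K
        rw [hz]
        exact h0
      · intro x hx y hy
        obtain ⟨h1, h2⟩ := h _ hx _ hy
        rw [TI_succ, TI_succ, Fin.castSucc_lt_castSucc_iff] at h2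
        rw [Fin.succAbove_lt_succAbove_iff] at h1
        exact ⟨h1, h2⟩
    refine Set.eq_univ_of_forall fun w => ?_
    rcases TI_cases q w with h1 | ⟨i, h1⟩
    · rw [h1]
      exact hqK
    · rw [h1]
      have : i ∈ {i | q.succAbove i ∈ K} := by
        rw [hK']
        exact Set.mem_univ i
      exact this
  · intro x y hx hy
    obtain rfl : y = q := Fin.ext (by rw [hy, hq])
    rw [TI_at]
    rcases TI_cases y x with h1 | ⟨i, h1⟩
    · rw [h1] at hx
      omega
    · rw [h1, TI_succ]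
      exact Fin.castSucc_lt_last _
  · intro b b' h
    have h1 := congrArg Subtype.val h
    exact Subtype.ext (TI_inj q h1)

end Pool.Agent.AV
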